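import Pool.Agent.Y472.G.Defs

/-!
# CB3-G-CTZ: the leading critical function on the contour
-/

set_option autoImplicit false

namespace Pool.Agent.Y25.CG

open Filter Topology Metric Set
open Pool.Agent.Y472
open Pool.Agent.W711.HT
open scoped Real

noncomputable def ff (k : ℕ) (m : ℤ) (χ : ℂ) : ℂ :=
  Complex.I * m * χ ^ 2 / (2 * π) + Complex.I * χ + 2 * k * s0 χ

noncomputable def ff1 (k : ℕ) (m : ℤ) (χ : ℂ) : ℂ :=
  Complex.I * m * χ / π + Complex.I - 2 * k / π * gh χ

noncomputable def ff2 (k : ℕ) (m : ℤ) (χ : ℂ) : ℂ :=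
  Complex.I * m / π - k / π / Complex.cos (χ / 2)

theorem hd1 (hS : S_S0P) (k : ℕ) (m : ℤ) {χ : ℂ} (h : |χ.re| < π) :
    HasDerivAt (ff k m) (ff1 k m χ) χ := by
  have h1 := (hS.1 χ h).1
  have h2 : HasDerivAt (fun χ : ℂ => Complex.I * m * χ ^ 2 / (2 * π))
      (Complex.I * m * (2 * χ) / (2 * π)) χ := by
    have := ((hasDerivAt_pow 2 χ).const_mul (Complex.I * m)).div_const (2 * (π : ℂ))
    simpa using this
  have h3 : HasDerivAt (fun χ : ℂ => Complex.I * χ) Complex.I χ := by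
    simpa using (hasDerivAt_id χ).const_mul Complex.I
  have h4 := (h2.add h3).add (h1.const_mul (2 * (k : ℂ)))
  refine h4.congr_deriv ?_
  have hpi : (π : ℂ) ≠ 0 := by exact_mod_cast Real.pi_ne_zero
  unfold ff1
  field_simp
  ring

theorem hd2 (hS : S_S0P) (k : ℕ) (m : ℤ) {χ : ℂ} (h : |χ.re| < π) :
    HasDerivAt (ff1 k m) (ff2 k m χ) χ := by
  have h1 := (hS.1 χ h).2
  have h3 : HasDerivAt (fun χ : ℂ => Complex.I * m * χ / π + Complex.I) (Complex.I * m / π) χ := by
    have := (((hasDerivAt_id χ).const_mul (Complex.I * m)).div_const (π : ℂ)).add_const Complex.I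
    simpa using this
  have h4 := h3.sub (h1.const_mul (2 * (k : ℂ) / π))
  refine h4.congr_deriv ?_
  unfold ff2
  have : (2 * (k : ℂ) / π) * (1 / (2 * Complex.cos (χ / 2))) = k / π / Complex.cos (χ / 2) := by
    rw [div_mul_div_comm, mul_one, div_div, mul_left_comm, mul_div_mul_left _ _ two_ne_zero]
  rw [this]

theorem cos_re_pos {χ : ℂ} (h : |χ.re| < π) : 0 < (Complex.cos (χ / 2)).re := by
  have h0 : χ / 2 = ((χ.re / 2 : ℝ) : ℂ) + ((χ.im / 2 : ℝ) : ℂ) * Complex.I := by
    conv_lhs => rw [← Complex.re_add_im χ]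
    push_cast
    ring
  have h2 : 0 < Real.cos (χ.re / 2) := by
    apply Real.cos_pos_of_mem_Ioo
    rw [abs_lt] at h
    constructor <;> linarith [h.1, h.2]
  rw [h0, Complex.cos_add_mul_I, ← Complex.ofReal_cos, ← Complex.ofReal_cosh,
    ← Complex.ofReal_sin, ← Complex.ofReal_sinh]
  have h3 : (((Real.cos (χ.re / 2) : ℝ) : ℂ) * ((Real.cosh (χ.im / 2) : ℝ) : ℂ) -
      ((Real.sin (χ.re / 2) : ℝ) : ℂ) * ((Real.sinh (χ.im / 2) : ℝ) : ℂ) * Complex.I).re =
      Real.cos (χ.re / 2) * Real.cosh (χ.im / 2) := by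
    simp only [Complex.sub_re, Complex.mul_re, Complex.ofReal_re, Complex.ofReal_im,
      Complex.I_re, Complex.I_im, Complex.mul_im]
    ring
  rw [h3]
  exact mul_pos h2 (Real.cosh_pos _)

theorem ff2_re (k : ℕ) (hk : 1 ≤ k) (m : ℤ) {χ : ℂ} (h : |χ.re| < π) : (ff2 k m χ).re < 0 := by
  have h1 := cos_re_pos h
  have h2 : 0 < (Complex.cos (χ / 2))⁻¹.re := by
    rw [Complex.inv_re]
    have : Complex.cos (χ / 2) ≠ 0 := by
      intro h0
      rw [h0] at h1
      simp at h1
    exact div_pos h1 (Complex.normSq_pos.mpr this)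
  have h3 : ff2 k m χ = (((m : ℝ) / π : ℝ) : ℂ) * Complex.I -
      (((k : ℝ) / π : ℝ) : ℂ) * (Complex.cos (χ / 2))⁻¹ := by
    unfold ff2
    push_cast
    rw [div_eq_mul_inv (((k : ℂ)) / π)]
    ring
  rw [h3, Complex.sub_re, Complex.re_ofReal_mul, Complex.re_ofReal_mul]
  have h4 : 0 < (k : ℝ) / π := div_pos (by exact_mod_cast hk) Real.pi_pos
  have := mul_pos h4 h2
  simp only [Complex.I_re, mul_zero, zero_sub]
  linarith

theorem ff_re (k : ℕ) (m : ℤ) (x y : ℝ) :
    (ff k m (x + y * Complex.I)).re = Wt m x y + 2 * k * (s0 (x + y * Complex.I)).re := by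
  have hpi : π ≠ 0 := Real.pi_ne_zero
  unfold ff Wt
  have h1 : Complex.I * m * ((x : ℂ) + y * Complex.I) ^ 2 / (2 * π) =
      (((m : ℝ) * (x ^ 2 - y ^ 2) / (2 * π) : ℝ) : ℂ) * Complex.I + ((-(m * x * y) / π : ℝ) : ℂ) := by
    have hpi' : (π : ℂ) ≠ 0 := by exact_mod_cast hpi
    push_cast
    field_simp
    ring_nf
    rw [show Complex.I ^ 3 = -Complex.I by rw [pow_succ, Complex.I_sq]; ring, Complex.I_sq]
    ring
  have h2 : Complex.I * ((x : ℂ) + y * Complex.I) = (x : ℂ) * Complex.I + ((-y : ℝ) : ℂ) := by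
    push_cast
    ring_nf
    rw [Complex.I_sq]
    ring
  have h3 : (2 * (k : ℂ) * s0 (x + y * Complex.I)).re = 2 * k * (s0 (x + y * Complex.I)).re := by
    have : (2 * (k : ℂ)) = ((2 * k : ℝ) : ℂ) := by push_cast; ring
    rw [this, Complex.re_ofReal_mul]
  rw [Complex.add_re, Complex.add_re, h3, h1, h2, Complex.add_re, Complex.add_re,
    Complex.re_ofReal_mul, Complex.re_ofReal_mul, Complex.ofReal_re, Complex.ofReal_re,
    Complex.I_re]
  ring

theorem Vz_eq (k : ℕ) (m : ℤ) (χ : ℂ) : Vz k m χ = (ff k m χ).re := rfl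

theorem re_xy (x y : ℝ) : ((x : ℂ) + y * Complex.I).re = x := by simp

/-- horizontal derivative -/
theorem hor (hS : S_S0P) (k : ℕ) (m : ℤ) (x y : ℝ) (h : |x| < π) :
    HasDerivAt (fun x : ℝ => (ff k m (x + y * Complex.I)).re)
      ((ff1 k m (x + y * Complex.I)).re) x := by
  have h1 : HasDerivAt (ff k m) (ff1 k m (x + y * Complex.I)) ((x : ℂ) + y * Complex.I) :=
    hd1 hS k m (by rwa [re_xy])
  have h2 : HasDerivAt (fun z : ℂ => ff k m (z + y * Complex.I)) (ff1 k m (x + y * Complex.I))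
      (x : ℂ) := by
    have := h1.comp (x : ℂ) ((hasDerivAt_id (x : ℂ)).add_const (y * Complex.I))
    simpa [Function.comp_def] using this
  exact h2.real_of_complex

theorem hor1 (hS : S_S0P) (k : ℕ) (m : ℤ) (x y : ℝ) (h : |x| < π) :
    HasDerivAt (fun x : ℝ => (ff1 k m (x + y * Complex.I)).re)
      ((ff2 k m (x + y * Complex.I)).re) x := by
  have h1 : HasDerivAt (ff1 k m) (ff2 k m (x + y * Complex.I)) ((x : ℂ) + y * Complex.I) :=
    hd2 hS k m (by rwa [re_xy])
  have h2 : HasDerivAt (fun z : ℂ => ff1 k m (z + y * Complex.I)) (ff2 k m (x + y * Complex.I))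
      (x : ℂ) := by
    have := h1.comp (x : ℂ) ((hasDerivAt_id (x : ℂ)).add_const (y * Complex.I))
    simpa [Function.comp_def] using this
  exact h2.real_of_complex

theorem ver (hS : S_S0P) (k : ℕ) (m : ℤ) (x y : ℝ) (h : |x| < π) :
    HasDerivAt (fun y : ℝ => (ff k m (x + y * Complex.I)).re)
      ((ff1 k m (x + y * Complex.I) * Complex.I).re) y := by
  have h1 : HasDerivAt (ff k m) (ff1 k m (x + y * Complex.I)) ((x : ℂ) + y * Complex.I) :=
    hd1 hS k m (by rwa [re_xy])
  have h0 : HasDerivAt (fun z : ℂ => (x : ℂ) + z * Complex.I) Complex.I (y : ℂ) := by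
    simpa using ((hasDerivAt_id (y : ℂ)).mul_const Complex.I).const_add (x : ℂ)
  have h2 : HasDerivAt (fun z : ℂ => ff k m (x + z * Complex.I))
      (ff1 k m (x + y * Complex.I) * Complex.I) (y : ℂ) := by
    have := h1.comp (y : ℂ) h0
    simpa [Function.comp_def] using this
  exact h2.real_of_complex

theorem ver1 (hS : S_S0P) (k : ℕ) (m : ℤ) (x y : ℝ) (h : |x| < π) :
    HasDerivAt (fun y : ℝ => (ff1 k m (x + y * Complex.I) * Complex.I).re)
      (-(ff2 k m (x + y * Complex.I)).re) y := by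
  have h1 : HasDerivAt (ff1 k m) (ff2 k m (x + y * Complex.I)) ((x : ℂ) + y * Complex.I) :=
    hd2 hS k m (by rwa [re_xy])
  have h0 : HasDerivAt (fun z : ℂ => (x : ℂ) + z * Complex.I) Complex.I (y : ℂ) := by
    simpa using ((hasDerivAt_id (y : ℂ)).mul_const Complex.I).const_add (x : ℂ)
  have h2 : HasDerivAt (fun z : ℂ => ff1 k m (x + z * Complex.I) * Complex.I)
      (ff2 k m (x + y * Complex.I) * Complex.I * Complex.I) (y : ℂ) := by
    have := (h1.comp (y : ℂ) h0).mul_const Complex.I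
    simpa [Function.comp_def] using this
  have h3 := h2.real_of_complex
  have h4 : ff2 k m (x + y * Complex.I) * Complex.I * Complex.I =
      -ff2 k m (x + y * Complex.I) := by
    rw [mul_assoc, Complex.I_mul_I]; ring
  rw [h4] at h3
  simpa using h3

theorem bet_le (hS : S_S0P) : bet ≤ 7 / 10 := by
  have h1 := hS.2.2.1
  have h2 := hS.2.2.2.1 0 (by simp [Real.pi_pos])
  rw [h1, Complex.ofReal_re] at h2
  have hlog : Real.log 4 = 2 * Real.log 2 := by
    rw [show (4 : ℝ) = 2 ^ 2 by norm_num, Real.log_pow]; push_cast; ring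
  have h3 : |∫ θ in (-(π / 2))..(π / 2), Lm 0 θ| ≤ Real.log 4 * |π / 2 - -(π / 2)| := by
    rw [← Real.norm_eq_abs]
    apply intervalIntegral.norm_integral_le_of_norm_le_const
    intro θ hθ
    rw [Set.uIoc_of_le (by linarith [Real.pi_pos])] at hθ
    have hc : 0 ≤ Real.cos θ := Real.cos_nonneg_of_mem_Icc ⟨hθ.1.le, hθ.2⟩
    have hc' : Real.cos θ ≤ 1 := Real.cos_le_one θ
    have h5 : ‖2 * Complex.cos ((0 : ℂ) / 2) + 2 * Complex.cos (θ : ℂ)‖ = 2 + 2 * Real.cos θ := by
      have : 2 * Complex.cos ((0 : ℂ) / 2) + 2 * Complex.cos (θ : ℂ)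
          = ((2 + 2 * Real.cos θ : ℝ) : ℂ) := by
        push_cast
        simp
      rw [this, Complex.norm_real, Real.norm_of_nonneg (by linarith)]
    unfold Lm
    rw [h5, Real.norm_of_nonneg (Real.log_nonneg (by linarith))]
    exact Real.log_le_log (by linarith) (by linarith)
  have h4 := (le_abs_self _).trans h3
  rw [abs_of_nonneg (by linarith [Real.pi_pos])] at h4
  have h5 : 2 * bet ≤ 1 / π * (Real.log 4 * (π / 2 - -(π / 2))) := by
    rw [h2]
    exact mul_le_mul_of_nonneg_left h4 (by positivity)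
  have h6 : 1 / π * (Real.log 4 * (π / 2 - -(π / 2))) = Real.log 4 := by
    field_simp
    ring
  rw [h6, hlog] at h5
  have := Real.log_two_lt_d9
  linarith

/-- strict maximum on the horizontal line -/
theorem hor_lt (hS : S_S0P) (k : ℕ) (hk : 1 ≤ k) (m : ℤ) (x0 y x : ℝ) (h0 : |x0| < π) (hx : |x| < π)
    (hc : (ff1 k m (x0 + y * Complex.I)).re = 0) (hne : x ≠ x0) :
    (ff k m (x + y * Complex.I)).re < (ff k m (x0 + y * Complex.I)).re := by
  have hI : ∀ a b t : ℝ, |a| < π → |b| < π → t ∈ Icc a b → |t| < π := by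
    intro a b t ha hb ht
    rw [abs_lt] at *
    exact ⟨ha.1.trans_le ht.1, ht.2.trans_lt hb.2⟩
  -- the first derivative is strictly decreasing
  have hanti : ∀ a b : ℝ, |a| < π → |b| < π → a < b →
      (ff1 k m (b + y * Complex.I)).re < (ff1 k m (a + y * Complex.I)).re := by
    intro a b ha hb hab
    obtain ⟨c, hc1, hc2⟩ := exists_hasDerivAt_eq_slope
      (fun x : ℝ => (ff1 k m (x + y * Complex.I)).re)
      (fun x : ℝ => (ff2 k m (x + y * Complex.I)).re) hab
      (fun t ht => (hor1 hS k m t y (hI a b t ha hb ht)).continuousAt.continuousWithinAt)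
      (fun t ht => hor1 hS k m t y (hI a b t ha hb (Ioo_subset_Icc_self ht)))
    have h3 : (ff2 k m (c + y * Complex.I)).re < 0 :=
      ff2_re k hk m (by rw [re_xy]; exact hI a b c ha hb (Ioo_subset_Icc_self hc1))
    rw [hc2] at h3
    have h4 : 0 < b - a := by linarith
    have := (div_neg_iff.mp h3)
    rcases this with h5 | h5
    · linarith [h5.2]
    · linarith [h5.1]
  rcases lt_or_gt_of_ne hne with hlt | hgt
  · obtain ⟨c, hc1, hc2⟩ := exists_hasDerivAt_eq_slope
      (fun x : ℝ => (ff k m (x + y * Complex.I)).re)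
      (fun x : ℝ => (ff1 k m (x + y * Complex.I)).re) hlt
      (fun t ht => (hor hS k m t y (hI x x0 t hx h0 ht)).continuousAt.continuousWithinAt)
      (fun t ht => hor hS k m t y (hI x x0 t hx h0 (Ioo_subset_Icc_self ht)))
    have h3 := hanti c x0 (hI x x0 c hx h0 (Ioo_subset_Icc_self hc1)) h0 hc1.2
    rw [hc] at h3
    rw [hc2] at h3
    have h4 : 0 < x0 - x := by linarith
    have h5 := (div_pos_iff_of_pos_right h4).mp h3
    linarith
  · obtain ⟨c, hc1, hc2⟩ := exists_hasDerivAt_eq_slope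
      (fun x : ℝ => (ff k m (x + y * Complex.I)).re)
      (fun x : ℝ => (ff1 k m (x + y * Complex.I)).re) hgt
      (fun t ht => (hor hS k m t y (hI x0 x t h0 hx ht)).continuousAt.continuousWithinAt)
      (fun t ht => hor hS k m t y (hI x0 x t h0 hx (Ioo_subset_Icc_self ht)))
    have h3 := hanti x0 c h0 (hI x0 x c h0 hx (Ioo_subset_Icc_self hc1)) hc1.1
    rw [hc] at h3
    rw [hc2] at h3
    have h4 : 0 < x - x0 := by linarith
    rcases div_neg_iff.mp h3 with h5 | h5
    · linarith [h5.2]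
    · linarith [h5.1]

/-- convexity on vertical lines -/
theorem ver_le (hS : S_S0P) (k : ℕ) (hk : 1 ≤ k) (m : ℤ) (x y h : ℝ) (hx : |x| < π)
    (hy : 0 ≤ y) (hyh : y ≤ h) :
    (ff k m (x + y * Complex.I)).re ≤
      max (ff k m (x + (0 : ℝ) * Complex.I)).re (ff k m (x + h * Complex.I)).re := by
  have hconv : ConvexOn ℝ (Set.univ : Set ℝ) (fun y : ℝ => (ff k m (x + y * Complex.I)).re) := by
    refine convexOn_of_hasDerivWithinAt2_nonneg (D := Set.univ) convex_univ
      (f' := fun y : ℝ => (ff1 k m (x + y * Complex.I) * Complex.I).re)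
      (f'' := fun y : ℝ => -(ff2 k m (x + y * Complex.I)).re) ?_ ?_ ?_ ?_
    · exact fun t _ => (ver hS k m x t hx).continuousAt.continuousWithinAt
    · exact fun t _ => (ver hS k m x t hx).hasDerivWithinAt
    · exact fun t _ => (ver1 hS k m x t hx).hasDerivWithinAt
    · intro t _
      have := ff2_re k hk m (χ := (x : ℂ) + t * Complex.I) (by rwa [re_xy])
      linarith
  exact hconv.le_max_of_mem_Icc (mem_univ _) (mem_univ _) ⟨hy, hyh⟩

theorem cont_s0 (hS : S_S0P) {p : ℝ × ℝ} (hp : |p.1| < π) :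
    ContinuousAt (fun p : ℝ × ℝ => (s0 (p.1 + p.2 * Complex.I)).re) p := by
  have h1 : ContinuousAt s0 ((p.1 : ℂ) + p.2 * Complex.I) :=
    (hS.1 _ (by rwa [re_xy])).1.continuousAt
  have h2 : ContinuousAt (fun p : ℝ × ℝ => (p.1 : ℂ) + p.2 * Complex.I) p := by fun_prop
  exact Complex.continuous_re.continuousAt.comp
    (ContinuousAt.comp (g := s0) (f := fun p : ℝ × ℝ => (p.1 : ℂ) + p.2 * Complex.I) h1 h2)

/-- uniformity by compactness -/
theorem unif (F : ℝ → ℝ → ℝ) (K : Set ℝ) (hK : IsCompact K) (y0 V : ℝ)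
    (hc : ∀ x ∈ K, ContinuousAt (fun p : ℝ × ℝ => F p.1 p.2) (x, y0))
    (hlt : ∀ x ∈ K, F x y0 < V) :
    ∃ κ δ : ℝ, 0 < κ ∧ 0 < δ ∧ ∀ h : ℝ, |h - y0| ≤ δ → ∀ x ∈ K, F x h ≤ V - κ := by
  rcases K.eq_empty_or_nonempty with hE | hE
  · subst hE
    exact ⟨1, 1, one_pos, one_pos, fun h _ x hx => absurd hx (notMem_empty _)⟩
  obtain ⟨x1, hx1, hmax⟩ := hK.exists_isMaxOn (f := fun x => F x y0) hE (by
    intro x hx
    have h1 : ContinuousAt (fun x : ℝ => (x, y0)) x := by fun_prop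
    exact (ContinuousAt.comp (g := fun p : ℝ × ℝ => F p.1 p.2) (f := fun x : ℝ => (x, y0))
      (hc x hx) h1).continuousWithinAt)
  set κ := (V - F x1 y0) / 2 with hκ
  have hκ0 : 0 < κ := by have := hlt x1 hx1; rw [hκ]; linarith
  have hev : ∀ᶠ h in 𝓝 y0, ∀ x ∈ K, F x h ≤ V - κ := by
    apply hK.eventually_forall_of_forall_eventually
    intro x hx
    have h1 : F x y0 < V - κ := by
      have h2 : F x y0 ≤ F x1 y0 := hmax hx
      rw [hκ]
      have := hlt x1 hx1
      linarith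
    have h2 : ContinuousAt (fun z : ℝ × ℝ => F z.2 z.1) (y0, x) := by
      have h3 : ContinuousAt (fun z : ℝ × ℝ => (z.2, z.1)) (y0, x) := by fun_prop
      exact ContinuousAt.comp (g := fun p : ℝ × ℝ => F p.1 p.2)
        (f := fun z : ℝ × ℝ => (z.2, z.1)) (x := (y0, x)) (hc x hx) h3
    exact (h2.eventually_lt_const h1).mono (fun z hz => le_of_lt hz)
  obtain ⟨δ, hδ, hb⟩ := Metric.eventually_nhds_iff.mp hev
  refine ⟨κ, δ / 2, hκ0, by positivity, fun h hh => hb ?_⟩
  rw [Real.dist_eq]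
  linarith

theorem ctz : Pool.Agent.Y472.S_CTZ := by
  intro hS k m χ₀ hk hm hcr
  obtain ⟨⟨hz1, hz2, hz3, hz4⟩, hcrit, hV1, hV2, hbs⟩ := hcr
  set x0 := χ₀.re with hx0
  set y0 := χ₀.im with hy0
  have hpi := Real.pi_pos
  have hpi3 := Real.pi_gt_d2
  have hpi4 := Real.pi_lt_d2
  have hχ : χ₀ = (x0 : ℂ) + y0 * Complex.I := (Complex.re_add_im χ₀).symm
  have hx0pi : |x0| < π := by rw [abs_lt]; constructor <;> linarith
  have hk' : (1 : ℝ) ≤ k := by exact_mod_cast hk
  have hm' : (0 : ℝ) ≤ m := by exact_mod_cast hm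
  have hbet := bet_le hS
  have hVeq : Vz k m χ₀ = (ff k m (x0 + y0 * Complex.I)).re := by rw [Vz_eq, ← hχ]
  have hc0 : (ff1 k m (x0 + y0 * Complex.I)).re = 0 := by
    rw [← hχ]
    unfold ff1
    rw [hcrit]
    simp
  -- continuity
  have hMc : ∀ x y : ℝ, |x| < π → ContinuousAt (fun p : ℝ × ℝ =>
      Wt m p.1 p.2 + 2 * k * max (s0 (p.1 + p.2 * Complex.I)).re bet) (x, y) := by
    intro x y hx
    have h1 := cont_s0 hS (p := (x, y)) hx
    unfold Wt
    have h2 : ContinuousAt (fun p : ℝ × ℝ => -(m * p.1 * p.2) / π - p.2) (x, y) := by fun_prop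
    exact h2.add (continuousAt_const.mul (h1.max continuousAt_const))
  have hNc : ∀ x y : ℝ, |x| < π → ContinuousAt (fun p : ℝ × ℝ =>
      Wt m p.1 p.2 + (2 * k - 1) * max (s0 (p.1 + p.2 * Complex.I)).re bet + bet) (x, y) := by
    intro x y hx
    have h1 := cont_s0 hS (p := (x, y)) hx
    unfold Wt
    have h2 : ContinuousAt (fun p : ℝ × ℝ => -(m * p.1 * p.2) / π - p.2) (x, y) := by fun_prop
    exact (h2.add (continuousAt_const.mul (h1.max continuousAt_const))).add continuousAt_const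
  -- the affine function
  have hv : ∀ x : ℝ, |x| ≤ 2 * π / 3 → Wt m x y0 + 2 * k * bet < Vz k m χ₀ := by
    intro x hx
    have h1 : Wt m x y0 ≤ (2 * m / 3 - 1) * y0 := by
      unfold Wt
      have h2 : -x ≤ 2 * π / 3 := (neg_le_abs x).trans hx
      have h3 : -(m * x * y0) / π = (m * y0) * (-x / π) := by ring
      have h4 : -x / π ≤ 2 / 3 := by rw [div_le_iff₀ hpi]; linarith
      have h5 := mul_le_mul_of_nonneg_left h4 (mul_nonneg hm' hz3.le)
      rw [h3]
      linarith
    linarith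
  have hmax : ∀ x y : ℝ, Wt m x y + 2 * k * max (s0 (x + y * Complex.I)).re bet =
      max (ff k m (x + y * Complex.I)).re (Wt m x y + 2 * k * bet) := by
    intro x y
    rw [ff_re, mul_max_of_nonneg _ _ (by positivity), max_add_add_left]
  have hMlt : ∀ x : ℝ, |x| ≤ 2 * π / 3 → x ≠ x0 →
      Wt m x y0 + 2 * k * max (s0 (x + y0 * Complex.I)).re bet < Vz k m χ₀ := by
    intro x hx hne
    rw [hmax]
    apply max_lt _ (hv x hx)
    rw [hVeq]
    exact hor_lt hS k hk m x0 y0 x hx0pi (by linarith) hc0 hne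
  have hpart1 : ∀ r : ℝ, 0 < r → ∃ κ δ : ℝ, 0 < κ ∧ 0 < δ ∧
    ∀ h : ℝ, |h - y0| ≤ δ → ∀ x : ℝ, |x| ≤ 2 * π / 3 → r ≤ |x - x0| →
      Wt m x h + 2 * k * max (s0 (x + h * Complex.I)).re bet ≤ Vz k m χ₀ - κ := by
    intro r hr
    have hK : IsCompact ({x : ℝ | |x| ≤ 2 * π / 3} ∩ {x : ℝ | r ≤ |x - x0|}) := by
      apply IsCompact.inter_right
      · have : {x : ℝ | |x| ≤ 2 * π / 3} = Icc (-(2 * π / 3)) (2 * π / 3) := by
          ext x; simp [abs_le]
        rw [this]
        exact isCompact_Icc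
      · exact isClosed_le continuous_const (by fun_prop)
    obtain ⟨κ, δ, hκ, hδ, hb⟩ := unif (fun x y => Wt m x y + 2 * k *
      max (s0 (x + y * Complex.I)).re bet) _ hK y0 (Vz k m χ₀)
      (fun x hx => hMc x y0 (by have := hx.1; simp only [mem_ofPred_eq] at this; linarith))
      (fun x hx => hMlt x hx.1 (by
        rintro rfl
        have := hx.2
        simp only [mem_ofPred_eq, sub_self, abs_zero] at this
        linarith))
    exact ⟨κ, δ, hκ, hδ, fun h hh x hx hxr => hb h hh x ⟨hx, hxr⟩⟩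
  -- part 2
  have hpart2 : ∃ κ δ : ℝ, 0 < κ ∧ 0 < δ ∧ ∀ h : ℝ, |h - y0| ≤ δ →
      ∀ x ∈ {x : ℝ | |x| ≤ 2 * π / 3},
      Wt m x h + (2 * k - 1) * max (s0 (x + h * Complex.I)).re bet + bet ≤ Vz k m χ₀ - κ := by
    apply unif (fun x y => Wt m x y + (2 * k - 1) * max (s0 (x + y * Complex.I)).re bet + bet)
    · have : {x : ℝ | |x| ≤ 2 * π / 3} = Icc (-(2 * π / 3)) (2 * π / 3) := by
        ext x; simp [abs_le]
      rw [this]
      exact isCompact_Icc
    · intro x hx
      exact hNc x y0 (by simp only [mem_ofPred_eq] at hx; linarith)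
    · intro x hx
      simp only [mem_ofPred_eq] at hx
      by_cases hne : x = x0
      · subst hne
        have h1 : (s0 (x0 + y0 * Complex.I)).re = (s0 χ₀).re := by rw [← hχ]
        rw [h1, max_eq_left hbs.le, hVeq, ff_re, h1]
        linarith
      · have h1 := hMlt x hx hne
        have h2 : bet ≤ max (s0 (x + y0 * Complex.I)).re bet := le_max_right _ _
        linarith
  obtain ⟨κ1, δ1, hκ1, hδ1, hb1⟩ := hpart1 (1 / 2) (by norm_num)
  obtain ⟨κ2, δ2, hκ2, hδ2, hb2⟩ := hpart2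
  -- the sides
  refine ⟨min (min κ1 κ2) (3 / 200), min δ1 δ2, by positivity, by positivity, hpart1, ?_⟩
  intro h hh
  refine ⟨?_, ?_⟩
  · intro x hx
    refine (hb2 h (hh.trans (min_le_right _ _)) x hx).trans ?_
    have : min (min κ1 κ2) (3 / 200) ≤ κ2 := (min_le_left _ _).trans (min_le_right _ _)
    linarith
  · intro x y hx1 hx2 hy1 hy2
    have hxpi : |x| < π := by linarith
    have hdist : 1 / 2 ≤ |x - x0| := by
      rcases le_total 0 x with h0 | h0
      · rw [abs_of_nonneg h0] at hx1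
        rw [abs_of_nonneg (by linarith)]
        linarith
      · rw [abs_of_nonpos h0] at hx1
        rw [abs_of_nonpos (by linarith)]
        linarith
    have hend : Wt m x h + 2 * k * max (s0 (x + h * Complex.I)).re bet ≤ Vz k m χ₀ - κ1 :=
      hb1 h (hh.trans (min_le_left _ _)) x hx2 hdist
    have hzero : Wt m x 0 + 2 * k * max (s0 (x + (0 : ℝ) * Complex.I)).re bet ≤
        Vz k m χ₀ - 3 / 200 := by
      have h1 : (s0 (x + (0 : ℝ) * Complex.I)).re ≤ 157 / 200 := by
        have := hS.2.2.2.2 x hx1 hx2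
        simpa using this
      have h2 : max (s0 (x + (0 : ℝ) * Complex.I)).re bet ≤ 157 / 200 :=
        max_le h1 (by linarith)
      have h3 : Wt m x 0 = 0 := by unfold Wt; simp
      have h4 := mul_le_mul_of_nonneg_left h2 (show (0 : ℝ) ≤ 2 * k by positivity)
      rw [h3]
      nlinarith
    rw [hmax] at hend hzero ⊢
    have e1 := (max_le_iff.mp hend)
    have e2 := (max_le_iff.mp hzero)
    have hκm1 : min (min κ1 κ2) (3 / 200) ≤ κ1 := (min_le_left _ _).trans (min_le_left _ _)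
    have hκm2 : min (min κ1 κ2) (3 / 200) ≤ (3 : ℝ) / 200 := min_le_right _ _
    apply max_le
    · refine (ver_le hS k hk m x y h hxpi hy1 hy2).trans (max_le ?_ ?_)
      · linarith [e2.1]
      · linarith [e1.1]
    · -- affine in y
      have h5 : Wt m x y + 2 * k * bet ≤ max (Wt m x 0 + 2 * k * bet) (Wt m x h + 2 * k * bet) := by
        have h6 : ∀ t, Wt m x t = (-(m * x) / π - 1) * t := by intro t; unfold Wt; ring
        rw [h6 y, h6 0, h6 h]
        rcases le_total 0 (-(m * x) / π - 1) with h7 | h7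
        · apply le_max_of_le_right
          have := mul_le_mul_of_nonneg_left hy2 h7
          linarith
        · apply le_max_of_le_left
          have := mul_nonpos_of_nonpos_of_nonneg h7 hy1
          linarith
      refine h5.trans (max_le ?_ ?_)
      · linarith [e2.2]
      · linarith [e1.2]

end Pool.Agent.Y25.CG
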